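import Pool.Agent.Helper16.SYM.Defs

/-! Project SYM: piece D3 (finitely many intermediate fields). -/

set_option autoImplicit false

namespace Pool.Agent.Helper28.SYM

open Polynomial IsLocalRing
open scoped TensorProduct

theorem mem_quad {E Ω : Type*} [Field E] [Field Ω] [Algebra E Ω] {η x : Ω} {c : E}
    (hη : η ^ 2 = algebraMap E Ω c) (hx : x ∈ IntermediateField.adjoin E {η}) :
    ∃ a b : E, x = algebraMap E Ω a + algebraMap E Ω b * η := by
  have hq : aeval η (X ^ 2 - C c : E[X]) = 0 := by simp [hη]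
  have hm : (X ^ 2 - C c : E[X]).Monic := monic_X_pow_sub_C c (by norm_num)
  have hint : IsIntegral E η := ⟨_, hm, by simpa [aeval_def] using hq⟩
  have h1 : x ∈ (IntermediateField.adjoin E {η}).toSubalgebra := hx
  rw [IntermediateField.adjoin_simple_toSubalgebra_of_isAlgebraic hint.isAlgebraic,
    Algebra.adjoin_singleton_eq_range_aeval] at h1
  obtain ⟨r, hr⟩ := h1
  have h2 : aeval η (r %ₘ (X ^ 2 - C c)) = x := by
    rw [← hr]
    have := congrArg (aeval η) (modByMonic_add_div r (X ^ 2 - C c))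
    rw [map_add, map_mul, hq, zero_mul, add_zero] at this
    exact this
  have h3 : (r %ₘ (X ^ 2 - C c)).natDegree ≤ 1 := by
    have h4 := natDegree_modByMonic_lt r hm (by
      intro h
      have := congrArg natDegree h
      rw [natDegree_X_pow_sub_C, natDegree_one] at this
      omega)
    rw [natDegree_X_pow_sub_C] at h4
    omega
  obtain ⟨b, a, hab⟩ := exists_eq_X_add_C_of_natDegree_le_one h3
  refine ⟨a, b, ?_⟩
  rw [← h2, hab]
  simp [add_comm]

theorem sq_or {E Ω : Type*} [Field E] [CharZero E] [Field Ω] [Algebra E Ω] {η η' : Ω} {c c' : E}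
    (hη : η ^ 2 = algebraMap E Ω c) (hη' : η' ^ 2 = algebraMap E Ω c')
    (hx : η ∈ IntermediateField.adjoin E {η'}) :
    ∃ a : E, c = a ^ 2 ∨ c * c' = a ^ 2 := by
  obtain ⟨a, b, hab⟩ := mem_quad hη' hx
  have inj := (algebraMap E Ω).injective
  by_cases h : ∃ e : E, η' = algebraMap E Ω e
  · obtain ⟨e, he⟩ := h
    refine ⟨a + b * e, Or.inl (inj ?_)⟩
    rw [← hη, hab, he]
    simp
  · have h0 : a * b = 0 := by
      by_contra hne
      apply h
      refine ⟨(c - a ^ 2 - b ^ 2 * c') / (2 * (a * b)), ?_⟩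
      have h2 : (2 * (a * b) : E) ≠ 0 := mul_ne_zero two_ne_zero hne
      have h3 : algebraMap E Ω (2 * (a * b)) ≠ 0 := (_root_.map_ne_zero _).2 h2
      rw [map_div₀, eq_div_iff h3]
      simp only [map_sub, map_mul, map_pow, map_ofNat]
      rw [← hη, ← hη', hab]
      ring
    rcases mul_eq_zero.1 h0 with h1 | h1
    · refine ⟨b * c', Or.inr (inj ?_)⟩
      subst h1
      rw [map_mul, ← hη, hab]
      simp only [map_zero, zero_add, map_mul, map_pow]
      rw [← hη']
      ring
    · refine ⟨a, Or.inl (inj ?_)⟩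
      subst h1
      rw [← hη, hab]
      simp

theorem even_mult {k Ω : Type*} [Field k] [Field Ω] [Algebra k Ω]
    (t : Ω) (ht : Transcendental k t) (f : k[X]) (hf : f ≠ 0) (c : Ω)
    (hc : c ∈ IntermediateField.adjoin k {t}) (h : aeval t f = c ^ 2) (x : k) :
    Even (f.rootMultiplicity x) := by
  obtain ⟨P, Q, hPQ⟩ := (IntermediateField.mem_adjoin_simple_iff k c).1 hc
  have inj : Function.Injective (aeval t : k[X] →ₐ[k] Ω) :=
    transcendental_iff_injective.1 ht
  have hf' : aeval t f ≠ 0 := by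
    intro h0
    exact hf (inj (by rw [h0, map_zero]))
  have hQ' : aeval t Q ≠ 0 := by
    intro h0
    rw [h0, div_zero] at hPQ
    rw [h, hPQ] at hf'
    exact hf' (by norm_num)
  have hQ : Q ≠ 0 := by
    rintro rfl
    exact hQ' (by simp)
  have h1 : f * (Q * Q) = P * P := by
    apply inj
    rw [map_mul, map_mul, map_mul, h, hPQ]
    field_simp
  have hP : P * P ≠ 0 := by
    rw [← h1]
    exact mul_ne_zero hf (mul_ne_zero hQ hQ)
  have hP1 : P ≠ 0 := left_ne_zero_of_mul hP
  have h2 := congrArg (rootMultiplicity x) h1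
  rw [rootMultiplicity_mul (mul_ne_zero hf (mul_ne_zero hQ hQ)),
    rootMultiplicity_mul (mul_ne_zero hQ hQ), rootMultiplicity_mul hP] at h2
  rw [Nat.even_iff]
  omega

/-- the polynomial of the statement -/
noncomputable def hpoly {k : Type*} [Field k] (Λ : k[X]) (d : ℕ) (l : k) : k[X] :=
  ((X - C l) ^ d) * ((X - C l) ^ d - 1) * ((X - C l) ^ d - Λ)

theorem mult_self {k : Type*} [Field k] (Λ : k[X]) (d : ℕ) (hd : Odd d) (l : k)
    (hl : Λ.eval l ≠ 0) : (hpoly Λ d l).rootMultiplicity l = d ∧ hpoly Λ d l ≠ 0 := by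
  have hd0 : d ≠ 0 := by
    rintro rfl
    exact absurd hd (by decide)
  have h1 : ((X - C l) ^ d - 1 : k[X]).eval l ≠ 0 := by
    simp [hd0]
  have h2 : ((X - C l) ^ d - Λ : k[X]).eval l ≠ 0 := by
    simp [hd0, hl]
  have h1' : ((X - C l) ^ d - 1 : k[X]) ≠ 0 := by
    intro h
    rw [h, eval_zero] at h1
    exact h1 rfl
  have h2' : ((X - C l) ^ d - Λ : k[X]) ≠ 0 := by
    intro h
    rw [h, eval_zero] at h2
    exact h2 rfl
  have h3 : ((X - C l) ^ d : k[X]) ≠ 0 := pow_ne_zero _ (X_sub_C_ne_zero l)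
  have h0 : hpoly Λ d l ≠ 0 := mul_ne_zero (mul_ne_zero h3 h1') h2'
  refine ⟨?_, h0⟩
  unfold hpoly
  rw [rootMultiplicity_mul (mul_ne_zero (mul_ne_zero h3 h1') h2'),
    rootMultiplicity_mul (mul_ne_zero h3 h1'), rootMultiplicity_X_sub_C_pow,
    rootMultiplicity_eq_zero h1, rootMultiplicity_eq_zero h2, add_zero, add_zero]

theorem mult_other {k : Type*} [Field k] (Λ : k[X]) (d : ℕ) (l l' : k)
    (h : (hpoly Λ d l').eval l ≠ 0) : (hpoly Λ d l').rootMultiplicity l = 0 ∧
      hpoly Λ d l' ≠ 0 := by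
  refine ⟨rootMultiplicity_eq_zero h, ?_⟩
  intro h0
  rw [h0, eval_zero] at h
  exact h rfl

/-- the bad `l'` -/
theorem bad_finite {k : Type*} [Field k] [CharZero k] (Λ : k[X]) (d : ℕ) (hd : Odd d) (l : k) :
    {l' : ℕ | (hpoly Λ d (l' : k)).eval l = 0}.Finite := by
  classical
  have hd0 : d ≠ 0 := by
    rintro rfl
    exact absurd hd (by decide)
  have hdeg : ∀ c : k, ((C l - X) ^ d - C c : k[X]) ≠ 0 := by
    intro c h
    have h1 : ((C l - X) ^ d : k[X]) = C c := sub_eq_zero.1 h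
    have h2 := congrArg natDegree h1
    rw [natDegree_pow, natDegree_C] at h2
    have h3 : (C l - X : k[X]).natDegree = 1 := by
      have : (C l - X : k[X]) = -(X - C l) := by ring
      rw [this, natDegree_neg, natDegree_X_sub_C]
    rw [h3] at h2
    omega
  have hne : ((C l - X) ^ d - C 0 : k[X]) * ((C l - X) ^ d - C 1) *
      ((C l - X) ^ d - C (Λ.eval l)) ≠ 0 :=
    mul_ne_zero (mul_ne_zero (hdeg 0) (hdeg 1)) (hdeg _)
  have hfin := (((C l - X) ^ d - C 0 : k[X]) * ((C l - X) ^ d - C 1) *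
      ((C l - X) ^ d - C (Λ.eval l))).roots.toFinset.finite_toSet
  refine (hfin.preimage (f := fun n : ℕ => (n : k)) (Nat.cast_injective.injOn)).subset ?_
  intro l' hl'
  have h1 : (hpoly Λ d (l' : k)).eval l = 0 := hl'
  refine Set.mem_preimage.2 ?_
  rw [Finset.mem_coe, Multiset.mem_toFinset, mem_roots hne]
  unfold hpoly at h1
  simp only [IsRoot.def, eval_mul, eval_sub, eval_pow, eval_X, eval_C, eval_one, sub_zero] at h1 ⊢
  exact h1

theorem exists_shift {k Ω : Type*} [Field k] [CharZero k] [Field Ω] [IsAlgClosed Ω] [Algebra k Ω]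
    (t : Ω) (ht : Transcendental k t) (Λ : k[X]) (hΛ : Λ ≠ 0) (Θ : Finset Ω)
    (hΘ : ∀ θ ∈ Θ, IsAlgebraic (IntermediateField.adjoin k {t}) θ) (d : ℕ) (hd : Odd d) :
    ∃ l : ℕ, ∀ η : Ω, η ^ 2 = aeval t (((X - C (l : k)) ^ d) * ((X - C (l : k)) ^ d - 1) *
      ((X - C (l : k)) ^ d - Λ)) → η ∉ IntermediateField.adjoin k (insert t (Θ : Set Ω)) := by
  classical
  by_contra hcon
  push Not at hcon
  choose η hη hmem using hcon
  set E := IntermediateField.adjoin k {t} with hE
  haveI : CharZero Ω := charZero_of_injective_algebraMap (algebraMap k Ω).injective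
  haveI : CharZero E := charZero_of_injective_algebraMap (algebraMap k E).injective
  set M := IntermediateField.adjoin E (Θ : Set Ω) with hM
  have hmem' : ∀ l, η l ∈ M := by
    intro l
    have h1 := hmem l
    have h2 : IntermediateField.adjoin k (insert t (Θ : Set Ω)) = M.restrictScalars k := by
      rw [hM, hE, IntermediateField.adjoin_adjoin_left, Set.singleton_union]
    rw [h2] at h1
    exact h1
  haveI hfd : FiniteDimensional E M :=
    IntermediateField.finiteDimensional_adjoin (fun x hx => (hΘ x hx).isIntegral)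
  haveI : Algebra.IsSeparable E M := inferInstance
  haveI hfin : Finite (IntermediateField E M) :=
    Field.finite_intermediateField_of_exists_primitive_element E M
      (Field.exists_primitive_element E M)
  have htE : t ∈ E := IntermediateField.mem_adjoin_simple_self k t
  have hsqc : ∀ l : ℕ, ∃ c : E, (c : Ω) = aeval t (hpoly Λ d (l : k)) := by
    intro l
    exact ⟨aeval (⟨t, htE⟩ : E) (hpoly Λ d (l : k)), by
      rw [← IntermediateField.algebraMap_apply, ← aeval_algebraMap_apply]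
      rfl⟩
  choose c hc using hsqc
  let g : ℕ → IntermediateField E M := fun l => IntermediateField.adjoin E {⟨η l, hmem' l⟩}
  obtain ⟨F, hF⟩ := Finite.exists_infinite_fiber g
  have hF' : (g ⁻¹' {F}).Infinite := Set.infinite_coe_iff.1 hF
  have hΛfin : {l : ℕ | Λ.eval (l : k) = 0}.Finite := by
    refine (Λ.roots.toFinset.finite_toSet.preimage (f := fun n : ℕ => (n : k))
      (Nat.cast_injective.injOn)).subset ?_
    intro l hl
    have h1 : Λ.eval (l : k) = 0 := hl
    refine Set.mem_preimage.2 ?_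
    rw [Finset.mem_coe, Multiset.mem_toFinset, mem_roots hΛ]
    exact h1
  obtain ⟨l, hl1, hl2⟩ := (hF'.sdiff hΛfin).nonempty
  obtain ⟨l', hl1', hl2'⟩ := (hF'.sdiff (bad_finite Λ d hd (l : k))).nonempty
  have hgg : g l = g l' := by
    have h1 : g l = F := hl1
    have h2 : g l' = F := hl1'
    rw [h1, h2]
  have hin : (⟨η l, hmem' l⟩ : M) ∈ IntermediateField.adjoin E {(⟨η l', hmem' l'⟩ : M)} := by
    have : (⟨η l, hmem' l⟩ : M) ∈ g l := IntermediateField.mem_adjoin_simple_self E _
    rw [hgg] at this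
    exact this
  have hs1 : ∀ l : ℕ, (⟨η l, hmem' l⟩ : M) ^ 2 = algebraMap E M (c l) := by
    intro l
    apply Subtype.ext
    have h1 : ((algebraMap E M (c l) : M) : Ω) = (c l : Ω) := rfl
    rw [h1, hc l]
    exact hη l
  obtain ⟨a, ha⟩ := sq_or (hs1 l) (hs1 l') hin
  obtain ⟨m1, n1⟩ := mult_self Λ d hd (l : k) hl2
  obtain ⟨m2, n2⟩ := mult_other Λ d (l : k) (l' : k) hl2'
  rcases ha with ha | ha
  · have h1 : aeval t (hpoly Λ d (l : k)) = (a : Ω) ^ 2 := by
      rw [← hc l, ha]
      rfl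
    have h2 := even_mult t ht _ n1 (a : Ω) a.2 h1 (l : k)
    rw [m1] at h2
    exact (Nat.not_even_iff_odd.2 hd) h2
  · have h1 : aeval t (hpoly Λ d (l : k) * hpoly Λ d (l' : k)) = (a : Ω) ^ 2 := by
      rw [map_mul, ← hc l, ← hc l']
      have := congrArg (fun z : E => (z : Ω)) ha
      simpa using this
    have h2 := even_mult t ht _ (mul_ne_zero n1 n2) (a : Ω) a.2 h1 (l : k)
    rw [rootMultiplicity_mul (mul_ne_zero n1 n2), m1, m2, add_zero] at h2
    exact (Nat.not_even_iff_odd.2 hd) h2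

end Pool.Agent.Helper28.SYM
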